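import Pool.Agent.Lib.MP_0d9d33_an.Pitt

/-!
# Operators from `c_0` and `ℓ_q` into Lipschitz-free spaces over subsets of B-convex spaces

Let `X` be a real normed space whose dual has (equal-norm) type `s > 1` and let `M` be a metric space
which embeds bi-Lipschitzly in `X`. Then every bounded linear operator from `c_0`, and from `ℓ_q` for
`s / (s - 1) < q < ∞`, to the Lipschitz-free space over `M` is compact. Real Hilbert spaces satisfy
the hypothesis with `s = 2`.
-/

set_option autoImplicit false

namespace Pool.Agent.Results.MP_0d9d33_an.PittCompact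

open scoped ENNReal ZeroAtInfty

universe u v w

theorem result :
    (∀ (X : Type u) [NormedAddCommGroup X] [NormedSpace ℝ X] (s : ℝ), 1 < s → LFS.DualType X s →
      ∀ (M : Type v) [MetricSpace M] (b : M) (ι : M → X) (K L : NNReal),
        AntilipschitzWith K ι → LipschitzWith L ι →
          LFS.AllCompact C₀(ℕ, ℝ) (LFS.FreeSpace M b) ∧
          ∀ (q : ℝ≥0∞) [Fact (1 ≤ q)], q ≠ ∞ → s / (s - 1) < q.toReal →
            LFS.AllCompact (lp (fun _ : ℕ => ℝ) q) (LFS.FreeSpace M b)) ∧
    ∀ (H : Type w) [NormedAddCommGroup H] [InnerProductSpace ℝ H] [CompleteSpace H],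
      LFS.DualType H 2 :=
  ⟨fun _ _ _ _ hs hT _ _ b _ _ _ h1 h2 => LFS.pitt hs hT b h1 h2,
    fun _ _ _ _ => LFS.hilbert_dualType⟩

end Pool.Agent.Results.MP_0d9d33_an.PittCompact
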